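import Pool.Agent.FKP.StmtsS

/-!
# BRG: the frozen form of the family of the Schubert polynomials
-/

set_option autoImplicit false

open Finset Equiv

noncomputable section

namespace Pool.Agent.FKP.H86

theorem brg : BrgStmt := by
  intro n S h1 h2
  refine ⟨h1, ?_⟩
  intro w i j hij hw
  obtain ⟨i', rfl, rfl⟩ : ∃ i' : Fin n, i = i'.castSucc ∧ j = i'.succ := by
    have hi : (i : ℕ) < n := by have := j.isLt; omega
    refine ⟨⟨i, hi⟩, Fin.ext rfl, Fin.ext ?_⟩
    rw [Fin.val_succ]
    exact hij.symm
  exact h2 w i' hw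

end Pool.Agent.FKP.H86
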