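import Pool.Agent.FKP.Stmts

/-!
# COL: the one column identity
-/

set_option autoImplicit false

open Finset

noncomputable section

namespace Pool.Agent.FKP.H86

variable {N : ℕ}

/-- the orders of the set `C` -/
def Ls (C : Finset (Fin N)) : Finset (List (Fin N)) := ⟨C.val.lists, Multiset.lists_nodup_finset C⟩

theorem mem_Ls {C : Finset (Fin N)} {l : List (Fin N)} :
    l ∈ Ls C ↔ l.Nodup ∧ l.toFinset = C := by
  have h : l ∈ Ls C ↔ C.val = (l : Multiset (Fin N)) := by
    show l ∈ C.val.lists ↔ _
    rw [Multiset.mem_lists_iff]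
    rfl
  rw [h]
  constructor
  · intro e
    have hn : l.Nodup := by
      have := C.nodup
      rw [e] at this
      exact Multiset.coe_nodup.1 this
    refine ⟨hn, ?_⟩
    ext a
    rw [List.mem_toFinset, ← Finset.mem_val, e, Multiset.mem_coe]
  · rintro ⟨hn, rfl⟩
    rw [List.toFinset_val, List.dedup_eq_self.2 hn]

theorem R_eq (b : Fin N) (C : Finset (Fin N)) :
    R b C = ∑ l ∈ Ls C, (l.map fun c => X c b).prod := rfl

theorem R_empty (b : Fin N) : R b (∅ : Finset (Fin N)) = (1 : A N) := by
  rw [R_eq]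
  have : Ls (∅ : Finset (Fin N)) = {[]} := by
    ext l
    rw [mem_Ls, mem_singleton]
    constructor
    · rintro ⟨_, h⟩
      rwa [List.toFinset_eq_empty_iff] at h
    · rintro rfl
      simp
  rw [this, sum_singleton]
  rfl

/-- recursion at the first letter -/
theorem R_first (b : Fin N) {C : Finset (Fin N)} (hC : C.Nonempty) :
    R b C = (∑ c ∈ C, X c b * R b (C.erase c) : A N) := by
  have e : ∀ c, (X c b * R b (C.erase c) : A N) =
      ∑ l ∈ Ls (C.erase c), ((c :: l).map fun c => X c b).prod := by
    intro c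
    rw [R_eq, mul_sum]
    refine sum_congr rfl fun l _ => ?_
    rw [List.map_cons, List.prod_cons]
  rw [sum_congr rfl fun c _ => e c, sum_sigma', R_eq]
  symm
  refine sum_bij (fun p _ => p.1 :: p.2) ?_ ?_ ?_ ?_
  · rintro ⟨c, l⟩ h
    rw [mem_sigma, mem_Ls] at h
    obtain ⟨h1, h2, h3⟩ := h
    rw [mem_Ls, List.nodup_cons, List.toFinset_cons, h3, insert_erase h1]
    refine ⟨⟨?_, h2⟩, rfl⟩
    rw [← List.mem_toFinset, h3]
    exact notMem_erase _ _
  · rintro ⟨c, l⟩ _ ⟨c', l'⟩ _ h
    obtain ⟨rfl, rfl⟩ := List.cons.inj h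
    rfl
  · intro l hl
    rw [mem_Ls] at hl
    obtain ⟨h1, h2⟩ := hl
    cases l with
    | nil => subst h2; simp at hC
    | cons c l =>
      rw [List.nodup_cons] at h1
      refine ⟨⟨c, l⟩, ?_, rfl⟩
      rw [mem_sigma, mem_Ls, ← h2]
      refine ⟨by simp, h1.2, ?_⟩
      rw [List.toFinset_cons, erase_insert]
      rw [List.mem_toFinset]
      exact h1.1
  · rintro ⟨c, l⟩ _
    rfl

/-- recursion at the last letter -/
theorem R_last (b : Fin N) {C : Finset (Fin N)} (hC : C.Nonempty) :
    R b C = (∑ c ∈ C, R b (C.erase c) * X c b : A N) := by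
  have e : ∀ c, (R b (C.erase c) * X c b : A N) =
      ∑ l ∈ Ls (C.erase c), ((l ++ [c]).map fun c => X c b).prod := by
    intro c
    rw [R_eq, sum_mul]
    refine sum_congr rfl fun l _ => ?_
    rw [List.map_append, List.prod_append, List.map_singleton, List.prod_singleton]
  rw [sum_congr rfl fun c _ => e c, sum_sigma', R_eq]
  symm
  refine sum_bij (fun p _ => p.2 ++ [p.1]) ?_ ?_ ?_ ?_
  · rintro ⟨c, l⟩ h
    rw [mem_sigma, mem_Ls] at h
    obtain ⟨h1, h2, h3⟩ := h
    have hc : c ∉ l := by
      rw [← List.mem_toFinset, h3]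
      exact notMem_erase _ _
    rw [mem_Ls]
    constructor
    · rw [List.nodup_append]
      refine ⟨h2, List.nodup_singleton _, ?_⟩
      intro a ha x hx
      rw [List.mem_singleton] at hx
      subst hx
      rintro rfl
      exact hc ha
    · rw [List.toFinset_append, h3]
      simp only [List.toFinset_cons, List.toFinset_nil, insert_empty_eq]
      rw [union_comm, ← insert_eq, insert_erase h1]
  · rintro ⟨c, l⟩ _ ⟨c', l'⟩ _ h
    obtain ⟨h1, h2⟩ := List.append_inj' h rfl
    obtain ⟨rfl, -⟩ := List.cons.inj h2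
    simp only at h1
    subst h1
    rfl
  · intro l hl
    rw [mem_Ls] at hl
    obtain ⟨h1, h2⟩ := hl
    rcases List.eq_nil_or_concat l with rfl | ⟨l', c, rfl⟩
    · subst h2; simp at hC
    · rw [List.concat_eq_append] at h1 h2
      rw [List.nodup_append] at h1
      have hc : c ∉ l' := fun hc => h1.2.2 c hc c (List.mem_singleton_self _) rfl
      refine ⟨⟨c, l'⟩, ?_, (List.concat_eq_append).symm⟩
      rw [mem_sigma, mem_Ls, ← h2]
      refine ⟨by simp, h1.1, ?_⟩
      rw [List.toFinset_append]
      simp only [List.toFinset_cons, List.toFinset_nil, insert_empty_eq]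
      rw [union_comm, ← insert_eq, erase_insert]
      rw [List.mem_toFinset]
      exact hc
  · rintro ⟨c, l⟩ _
    rfl

/-- change of the order of a double sum -/
theorem reidx {M : Type*} [AddCommMonoid M] (S : Finset (Fin N))
    (F : Fin N → Finset (Fin N) → M) :
    ∑ c ∈ S, ∑ B ∈ (S.erase c).powerset, F c B =
      ∑ B ∈ S.powerset, ∑ c ∈ B, F c (B.erase c) := by
  rw [sum_sigma', sum_sigma']
  refine sum_bij (fun p _ => ⟨insert p.1 p.2, p.1⟩) ?_ ?_ ?_ ?_
  · rintro ⟨c, B⟩ h
    rw [mem_sigma, mem_powerset] at h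
    rw [mem_sigma, mem_powerset]
    exact ⟨insert_subset h.1 (h.2.trans (erase_subset _ _)), mem_insert_self _ _⟩
  · rintro ⟨c, B⟩ h ⟨c', B'⟩ h' e
    rw [mem_sigma, mem_powerset] at h h'
    have e1 : insert c B = insert c' B' := congrArg Sigma.fst e
    have e2 : c = c' := by
      have := congrArg (fun s : (_ : Finset (Fin N)) × Fin N => s.2) e
      exact this
    subst e2
    have h1 : c ∉ B := fun hc => notMem_erase _ _ (h.2 hc)
    have h2 : c ∉ B' := fun hc => notMem_erase _ _ (h'.2 hc)
    have : B = B' := by rw [← erase_insert h1, e1, erase_insert h2]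
    subst this
    rfl
  · rintro ⟨B, c⟩ h
    rw [mem_sigma, mem_powerset] at h
    refine ⟨⟨c, B.erase c⟩, ?_, ?_⟩
    · rw [mem_sigma, mem_powerset]
      exact ⟨h.1 h.2, erase_subset_erase _ h.1⟩
    · have := insert_erase h.2
      simp only [this]
  · rintro ⟨c, B⟩ h
    rw [mem_sigma, mem_powerset] at h
    have h1 : c ∉ B := fun hc => notMem_erase _ _ (h.2 hc)
    simp only [erase_insert h1]

/-- the letters of different columns and rows commute -/
theorem R_comm {b k c : Fin N} (hbk : b ≠ k) (hck : c ≠ k) :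
    ∀ (n : ℕ) (C : Finset (Fin N)), C.card = n → c ∉ C → b ∉ C →
      (X c b * R k C : A N) = R k C * X c b := by
  intro n
  induction n with
  | zero =>
    intro C h _ _
    rw [card_eq_zero] at h
    subst h
    rw [R_empty, mul_one, one_mul]
  | succ n ih =>
    intro C h h1 h2
    have hC : C.Nonempty := by rw [← card_pos]; omega
    rw [R_first k hC, mul_sum, sum_mul]
    refine sum_congr rfl fun a ha => ?_
    have ha1 : c ≠ a := fun e => h1 (e ▸ ha)
    have ha2 : b ≠ a := fun e => h2 (e ▸ ha)
    rw [← mul_assoc, X_comm ha1 hck ha2 hbk, mul_assoc, ih _ (by rw [card_erase_of_mem ha]; omega)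
      (fun e => h1 (mem_of_mem_erase e)) (fun e => h2 (mem_of_mem_erase e)), mul_assoc]

/-- the letter `X k b` through the column `k` -/
theorem star (k b : Fin N) (hkb : k < b) : ∀ (n : ℕ) (D : Finset (Fin N)), D.card = n →
    (∀ a ∈ D, a < k) → (R k D * X k b : A N) = X k b * R b D +
      ∑ c ∈ D, ∑ B ∈ (D.erase c).powerset, X c b * R b B * R k (D.erase c \ B) * X c k := by
  intro n
  induction n with
  | zero =>
    intro D h _
    rw [card_eq_zero] at h
    subst h
    rw [R_empty, R_empty, one_mul, mul_one, sum_empty, add_zero]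
  | succ n ih =>
    intro D h hD
    have hne : D.Nonempty := by rw [← card_pos]; omega
    have hb : ∀ a ∈ D, b ≠ a := fun a ha e => absurd ((hD a ha).trans hkb) (e ▸ lt_irrefl _)
    have hk : ∀ a ∈ D, a ≠ k := fun a ha => (hD a ha).ne
    -- last letter
    have e1 : (R k D * X k b : A N) = ∑ c ∈ D, (X c b * R k (D.erase c) * X c k +
        R k (D.erase c) * X k b * X c b) := by
      rw [R_last k hne, sum_mul]
      refine sum_congr rfl fun c hc => ?_
      rw [mul_assoc, X_path (hk c hc) hkb.ne (hb c hc).symm, mul_add, ← mul_assoc, ← mul_assoc,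
        R_comm hkb.ne' (hk c hc) _ _ rfl (notMem_erase _ _)
          (fun e => hb b (mem_of_mem_erase e) rfl)]
    have e2 : ∀ c ∈ D, (R k (D.erase c) * X k b * X c b : A N) = X k b * (R b (D.erase c) * X c b) +
        ∑ c' ∈ D.erase c, ∑ B ∈ ((D.erase c).erase c').powerset,
          X c' b * (R b B * X c b) * R k ((D.erase c).erase c' \ B) * X c' k := by
      intro c hc
      rw [ih (D.erase c) (by rw [card_erase_of_mem hc]; omega)
        (fun a ha => hD a (mem_of_mem_erase ha)), add_mul, mul_assoc, sum_mul]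
      congr 1
      refine sum_congr rfl fun c' hc' => ?_
      rw [sum_mul]
      refine sum_congr rfl fun B hB => ?_
      have hcc : c' ≠ c := ne_of_mem_erase hc'
      have hc'D := mem_of_mem_erase hc'
      have hs : (D.erase c).erase c' \ B ⊆ D.erase c := sdiff_subset.trans (erase_subset _ _)
      rw [mul_assoc, X_comm hcc (hb c' hc'D).symm (hk c hc).symm hkb.ne]
      rw [← mul_assoc, mul_assoc _ (R k _) (X c b),
        ← R_comm hkb.ne' (hk c hc) _ _ rfl (fun e => notMem_erase _ _ (hs e))
          (fun e => hb b (mem_of_mem_erase (hs e)) rfl)]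
      simp only [mul_assoc]
    rw [e1, sum_add_distrib, sum_congr rfl e2, sum_add_distrib, ← mul_sum, ← R_last b hne]
    rw [add_left_comm]
    congr 1
    -- the sum over `c`, `c'`, `B`
    have e3 : (∑ c ∈ D, ∑ c' ∈ D.erase c, ∑ B ∈ ((D.erase c).erase c').powerset,
          X c' b * (R b B * X c b) * R k ((D.erase c).erase c' \ B) * X c' k : A N) =
        ∑ c' ∈ D, ∑ c ∈ D.erase c', ∑ B ∈ ((D.erase c').erase c).powerset,
          X c' b * (R b B * X c b) * R k ((D.erase c').erase c \ B) * X c' k := by
      rw [sum_comm' (s' := fun c' => D.erase c') (t' := D)]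
      · refine sum_congr rfl fun c' _ => sum_congr rfl fun c _ => ?_
        rw [erase_right_comm]
      · intro c c'
        rw [mem_erase, mem_erase]
        constructor
        · rintro ⟨h1, h2, h3⟩
          exact ⟨⟨h2.symm, h1⟩, h3⟩
        · rintro ⟨⟨h1, h2⟩, h3⟩
          exact ⟨h2, h1.symm, h3⟩
    rw [e3, ← sum_add_distrib]
    refine sum_congr rfl fun c' hc' => ?_
    rw [reidx (D.erase c') (fun c B => X c' b * (R b B * X c b) *
      R k ((D.erase c').erase c \ B) * X c' k)]
    rw [← sum_erase_add _ _ (empty_mem_powerset (D.erase c'))]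
    rw [← sum_erase_add (powerset (D.erase c')) (fun B => X c' b * R b B *
      R k (D.erase c' \ B) * X c' k) (empty_mem_powerset (D.erase c'))]
    rw [sum_empty, add_zero, R_empty, mul_one, sdiff_empty, add_comm]
    congr 1
    refine sum_congr rfl fun B hB => ?_
    rw [mem_erase, mem_powerset] at hB
    have hBne : B.Nonempty := nonempty_iff_ne_empty.2 hB.1
    rw [R_last b hBne, mul_sum, sum_mul, sum_mul]
    refine sum_congr rfl fun c hc => ?_
    have : (D.erase c').erase c \ B.erase c = D.erase c' \ B := by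
      ext a
      simp only [mem_sdiff, mem_erase]
      constructor
      · rintro ⟨⟨h1, h2⟩, h3⟩
        exact ⟨h2, fun h => h3 ⟨h1, h⟩⟩
      · rintro ⟨h1, h2⟩
        exact ⟨⟨fun e => h2 (e ▸ hc), h1⟩, fun h => h2 h.2⟩
    rw [this]

theorem col : ColStmt := by
  intro N k b D hD hkb
  obtain ⟨n, hn⟩ : ∃ n, D.card = n := ⟨_, rfl⟩
  induction n generalizing D with
  | zero =>
    rw [card_eq_zero] at hn
    subst hn
    rw [powerset_empty, sum_singleton, sum_empty, sub_zero, sdiff_empty, R_empty, R_empty,
      R_first b (insert_nonempty _ _)]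
    rw [insert_empty_eq, sum_singleton, erase_singleton, R_empty, mul_one, one_mul, one_mul]
  | succ n ih =>
    have hne : D.Nonempty := by rw [← card_pos]; omega
    have hkD : k ∉ D := fun h => lt_irrefl _ (hD k h)
    rw [R_first b (insert_nonempty _ _), sum_insert hkD, erase_insert hkD]
    have e1 : ∀ c ∈ D, (X c b * R b ((insert k D).erase c) : A N) =
        ∑ B ∈ (D.erase c).powerset, X c b * R b B * R k (D.erase c \ B) *
          (X k b - ∑ a ∈ B, X a k) := by
      intro c hc
      have hck : c ≠ k := (hD c hc).ne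
      rw [erase_insert_of_ne hck.symm, ih (D.erase c) (fun a ha => hD a (mem_of_mem_erase ha))
        (by rw [card_erase_of_mem hc]; omega), mul_sum]
      refine sum_congr rfl fun B _ => ?_
      simp only [mul_assoc]
    rw [sum_congr rfl e1]
    have e2 : ∀ c ∈ D, ∀ B ∈ (D.erase c).powerset, (X c b * R b B * R k (D.erase c \ B) *
          (X k b - ∑ a ∈ B, X a k) : A N) =
        X c b * R b B * R k (D.erase c \ B) * (X k b - ∑ a ∈ insert c B, X a k) +
        X c b * R b B * R k (D.erase c \ B) * X c k := by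
      intro c _ B hB
      rw [mem_powerset] at hB
      have : c ∉ B := fun h => notMem_erase _ _ (hB h)
      rw [sum_insert this, ← mul_add]
      congr 1
      abel
    rw [sum_congr rfl fun c hc => sum_congr rfl (e2 c hc)]
    simp only [sum_add_distrib]
    rw [add_left_comm, ← star k b hkb _ D rfl hD]
    rw [reidx D (fun c B => X c b * R b B * R k (D.erase c \ B) *
      (X k b - ∑ a ∈ insert c B, X a k))]
    rw [← sum_erase_add _ _ (empty_mem_powerset D)]
    rw [← sum_erase_add (powerset D) (fun B => R b B * R k (D \ B) *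
      (X k b - ∑ a ∈ B, X a k)) (empty_mem_powerset D)]
    rw [sum_empty, sum_empty, add_zero, sub_zero, R_empty, one_mul, sdiff_empty]
    congr 1
    refine sum_congr rfl fun B hB => ?_
    rw [mem_erase, mem_powerset] at hB
    have hBne : B.Nonempty := nonempty_iff_ne_empty.2 hB.1
    rw [R_first b hBne, sum_mul, sum_mul]
    refine sum_congr rfl fun c hc => ?_
    have : D.erase c \ B.erase c = D \ B := by
      ext a
      simp only [mem_sdiff, mem_erase]
      constructor
      · rintro ⟨⟨h1, h2⟩, h3⟩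
        exact ⟨h2, fun h => h3 ⟨h1, h⟩⟩
      · rintro ⟨h1, h2⟩
        exact ⟨⟨fun e => h2 (e ▸ hc), h1⟩, fun h => h2 h.2⟩
    rw [this, insert_erase hc]

end Pool.Agent.FKP.H86
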