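import Pool.Agent.FKP.StmtsS

/-!
# GLG: glueing of good permutations
-/

set_option autoImplicit false

open Finset Equiv

noncomputable section

namespace Pool.Agent.FKP.H86

/-- the ideal of the symmetric polynomials vanishes at the Dunkl elements -/
theorem ev_Isy (pie : PieStmt) {N : ℕ} {p : MvPolynomial (Fin N) ℤ} (hp : p ∈ Isy N) :
    ev N p = 0 := by
  have h : Isy N ≤ RingHom.ker (ev N) := by
    refine Ideal.span_le.2 ?_
    rintro z ⟨k, hk, rfl⟩
    exact (pie N N le_rfl).1 k hk
  exact h hp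

theorem ev_eq (pie : PieStmt) {N : ℕ} {p q : MvPolynomial (Fin N) ℤ} (hp : p - q ∈ Isy N) :
    ev N p = ev N q := by
  have := ev_Isy pie hp
  rw [map_sub] at this
  exact sub_eq_zero.1 this

theorem glg (gls : GlsStmt) (glr : GlrStmt) (asc : AscStmt) (sym : SymStmt) (glm : GlmStmt)
    (pie : PieStmt) : GlgStmt := by
  have key : ∀ (m s r : ℕ), r ≤ m → ∀ (v : Perm (Fin m)) (u : Perm (Fin (m + s))),
    (∀ a b : Fin m, a < b → b.val < r → v a < v b) →
    (∀ a b : Fin (m + s), a < b → (u b).val < m → (u a).val < m → u a < u b) →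
    (∀ a : Fin (m + s), r + s ≤ a.val → (u a).val < m) →
    good (m + s) u → good m v → good (m + s) (low s v * u) := by
    intro m s r hr v u hv hu1 hu2 gu gv S hS
    obtain ⟨S2, hS2, h2⟩ := gls m s S hS
    have hf : SymF r (S2 v) := asc m S2 hS2 r v hv
    obtain ⟨G, g1, g2, g3, g4⟩ := sym m r s hr (S2 v) hf
    have e1 := h2 r v u hv hu1 hu2 G g1 g4
    rw [ev_eq pie e1]
    exact glm m r s hr (S u) G (S2 v) (gu S hS) (ev_Isy pie (glr m s S hS r u hu1 hu2))
      (gv S2 hS2) g3 g2
  intro m s r v u hv hu1 hu2 gu gv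
  rcases le_total r m with h | h
  · exact key m s r h v u hv hu1 hu2 gu gv
  · refine key m s m le_rfl v u (fun a b hab hb => hv a b hab (by omega)) hu1
      (fun a ha => ?_) gu gv
    have := a.isLt
    omega

end Pool.Agent.FKP.H86
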